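import Mathlib
import Pool.Agent.H317.GI.Stm

/-!
# Project GI: distorted elements have eigenvalues which are roots of unity
-/

set_option autoImplicit false

namespace Pool.Agent.H250.GI

open Matrix Module Pool.Agent.H317.GR Pool.Agent.H317.GH Pool.Agent.H317.GI

/-- An eigenvector for an element of the spectrum. -/
theorem exists_vec {A : Matrix (Fin 3) (Fin 3) ℂ} {μ : ℂ} (h : μ ∈ spectrum ℂ A) :
    ∃ w : Fin 3 → ℂ, w ≠ 0 ∧ A *ᵥ w = μ • w := by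
  rw [← Matrix.spectrum_toLin', ← Module.End.hasEigenvalue_iff_mem_spectrum] at h
  obtain ⟨w, hw⟩ := h.exists_hasEigenvector
  refine ⟨w, hw.2, ?_⟩
  have h1 := hw.apply_eq_smul
  rwa [Matrix.toLin'_apply] at h1

theorem pow_vec {A : Matrix (Fin 3) (Fin 3) ℂ} {μ : ℂ} {w : Fin 3 → ℂ} (h : A *ᵥ w = μ • w) :
    ∀ k : ℕ, (A ^ k) *ᵥ w = μ ^ k • w := by
  intro k
  induction k with
  | zero => simp
  | succ k ih =>
    rw [pow_succ, ← Matrix.mulVec_mulVec, h, Matrix.mulVec_smul, ih, smul_smul, pow_succ']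

attribute [local instance] Matrix.linftyOpNormedRing in
/-- Growth along a word. -/
theorem word_le {G : Type} [Group G] (ρ : G →* GL (Fin 3) ℂ) (S : Finset G) :
    ∃ M : ℝ, 1 ≤ M ∧ ∀ l : List G, (∀ s ∈ l, s ∈ S ∨ s⁻¹ ∈ S) → ∀ w : Fin 3 → ℂ,
      ‖(ρ l.prod).val *ᵥ w‖ ≤ M ^ l.length * ‖w‖ := by
  classical
  obtain ⟨M, hM⟩ : ∃ M : ℝ, M = 1 + ∑ s ∈ S, (‖(ρ s).val‖ + ‖(ρ s⁻¹).val‖) := ⟨_, rfl⟩
  have hnn : ∀ s : G, 0 ≤ ‖(ρ s).val‖ + ‖(ρ s⁻¹).val‖ :=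
    fun s => add_nonneg (norm_nonneg _) (norm_nonneg _)
  have hM1 : 1 ≤ M := by
    rw [hM]
    have : 0 ≤ ∑ s ∈ S, (‖(ρ s).val‖ + ‖(ρ s⁻¹).val‖) := Finset.sum_nonneg fun s _ => hnn s
    linarith
  have hle : ∀ s ∈ S, ‖(ρ s).val‖ + ‖(ρ s⁻¹).val‖ ≤ M := by
    intro s hs
    have h1 := Finset.single_le_sum (f := fun s => ‖(ρ s).val‖ + ‖(ρ s⁻¹).val‖)
      (fun s _ => hnn s) hs
    rw [hM]
    linarith
  have hlt : ∀ s : G, (s ∈ S ∨ s⁻¹ ∈ S) → ‖(ρ s).val‖ ≤ M := by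
    intro s hs
    rcases hs with hs | hs
    · have := hle s hs
      have h2 := norm_nonneg (ρ s⁻¹).val
      linarith
    · have := hle _ hs
      rw [inv_inv] at this
      have h2 := norm_nonneg (ρ s⁻¹).val
      linarith
  refine ⟨M, hM1, fun l => ?_⟩
  induction l with
  | nil =>
    intro _ w
    simp
  | cons s l ih =>
    intro hl w
    have h1 := ih (fun t ht => hl t (List.mem_cons_of_mem _ ht)) w
    have h2 := hlt s (hl s List.mem_cons_self)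
    rw [List.prod_cons, map_mul, Units.val_mul, ← Matrix.mulVec_mulVec, List.length_cons]
    calc ‖(ρ s).val *ᵥ ((ρ l.prod).val *ᵥ w)‖ ≤ ‖(ρ s).val‖ * ‖(ρ l.prod).val *ᵥ w‖ :=
          Matrix.linfty_opNorm_mulVec _ _
      _ ≤ M * (M ^ l.length * ‖w‖) :=
          mul_le_mul h2 h1 (norm_nonneg _) (by linarith)
      _ = M ^ (l.length + 1) * ‖w‖ := by rw [pow_succ']; ring

/-- (1) The eigenvalues of a distorted element have absolute value at most one. -/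
theorem eig_le {G : Type} [Group G] (ρ : G →* GL (Fin 3) ℂ) (x : G) (hx : Distorted x) (μ : ℂ)
    (hμ : μ ∈ spectrum ℂ (ρ x).val) : ‖μ‖ ≤ 1 := by
  obtain ⟨S, hS⟩ := hx
  obtain ⟨M, hM1, hM⟩ := word_le ρ S
  obtain ⟨w, hw, hxw⟩ := exists_vec hμ
  by_contra hcon
  push Not at hcon
  obtain ⟨C, hC⟩ := pow_unbounded_of_one_lt M hcon
  obtain ⟨k, hk, l, hl, hlk, hCk⟩ := hS C
  have h1 := hM l hl w
  rw [hlk, map_pow, Units.val_pow_eq_pow_val, pow_vec hxw, norm_smul, norm_pow] at h1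
  have hw0 : 0 < ‖w‖ := norm_pos_iff.2 hw
  have h2 : ‖μ‖ ^ k ≤ M ^ l.length := le_of_mul_le_mul_right h1 hw0
  rcases Nat.eq_zero_or_pos l.length with h0 | h0
  · rw [h0, pow_zero] at h2
    have h3 : 1 < ‖μ‖ ^ k := one_lt_pow₀ hcon (by omega)
    linarith
  · have h3 : ‖μ‖ ^ (C * l.length) ≤ ‖μ‖ ^ k := pow_le_pow_right₀ hcon.le hCk
    rw [pow_mul] at h3
    have h4 : M ^ l.length < (‖μ‖ ^ C) ^ l.length :=
      pow_lt_pow_left₀ hC (by linarith) (by omega)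
    linarith

/-- The trace is the sum of three elements of the spectrum. -/
theorem trace_mem (A : Matrix (Fin 3) (Fin 3) ℂ) : ∃ s : Multiset ℂ, s.card = 3 ∧
    (∀ μ ∈ s, μ ∈ spectrum ℂ A) ∧ A.trace = s.sum := by
  refine ⟨A.charpoly.roots, ?_, ?_, Matrix.trace_eq_sum_roots_charpoly A⟩
  · rw [← (IsAlgClosed.splits A.charpoly).natDegree_eq_card_roots, Matrix.charpoly_natDegree_eq_dim,
      Fintype.card_fin]
  · intro μ hμ
    rw [Matrix.mem_spectrum_iff_isRoot_charpoly]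
    exact (Polynomial.mem_roots'.1 hμ).2

theorem trace_le {A : Matrix (Fin 3) (Fin 3) ℂ} (h : ∀ μ ∈ spectrum ℂ A, ‖μ‖ ≤ 1) :
    ‖A.trace‖ ≤ 3 := by
  obtain ⟨s, hs, hs1, hs2⟩ := trace_mem A
  rw [hs2]
  have h1 : ‖s.sum‖ ≤ (s.map fun z => ‖z‖).sum := norm_multiset_sum_le s
  have h2 : (s.map fun z => ‖z‖).sum ≤ s.card • (1 : ℝ) := by
    have h3 := Multiset.sum_le_card_nsmul (s.map fun z : ℂ => ‖z‖) (1 : ℝ) (by
      intro y hy
      obtain ⟨z, hz, rfl⟩ := Multiset.mem_map.1 hy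
      exact h z (hs1 z hz))
    rwa [Multiset.card_map] at h3
  rw [hs] at h2
  have h4 : (3 : ℕ) • (1 : ℝ) = 3 := by norm_num
  linarith

theorem trace_three {A : Matrix (Fin 3) (Fin 3) ℂ} (h : ∀ μ ∈ spectrum ℂ A, μ = 1) :
    A.trace = 3 := by
  obtain ⟨s, hs, hs1, hs2⟩ := trace_mem A
  have h1 : s = Multiset.replicate 3 1 := by
    rw [Multiset.eq_replicate]
    exact ⟨hs, fun μ hμ => h μ (hs1 μ hμ)⟩
  rw [hs2, h1, Multiset.sum_replicate]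
  norm_num

/-- The spectrum is determined by three traces. -/
theorem det_traces (A : Matrix (Fin 3) (Fin 3) ℂ) (r : ℂ) :
    A.charpoly.eval r = r ^ 3 - A.trace * r ^ 2 + (A.trace ^ 2 - (A ^ 2).trace) / 2 * r -
      (A.trace ^ 3 - 3 * A.trace * (A ^ 2).trace + 2 * (A ^ 3).trace) / 6 := by
  rw [Matrix.eval_charpoly, Matrix.det_fin_three]
  simp only [pow_succ, pow_zero, one_mul, Matrix.trace_fin_three, Matrix.mul_apply,
    Fin.sum_univ_three, Matrix.sub_apply, Matrix.scalar_apply, Matrix.diagonal_apply]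
  simp
  ring

theorem spec_eq {A B : Matrix (Fin 3) (Fin 3) ℂ} (h1 : A.trace = B.trace)
    (h2 : (A ^ 2).trace = (B ^ 2).trace) (h3 : (A ^ 3).trace = (B ^ 3).trace) :
    spectrum ℂ A = spectrum ℂ B := by
  ext r
  rw [Matrix.mem_spectrum_iff_isRoot_charpoly, Matrix.mem_spectrum_iff_isRoot_charpoly,
    Polynomial.IsRoot.def, Polynomial.IsRoot.def, det_traces, det_traces, h1, h2, h3]

/-- The pigeonhole principle. -/
theorem pigeon (ψ : ℕ → ℤ) (h : ∀ m, 0 < m → |ψ m| ≤ 3) : ∃ i j, i < j ∧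
    ψ (2 ^ i) = ψ (2 ^ j) ∧ ψ (2 ^ i * 2) = ψ (2 ^ j * 2) ∧ ψ (2 ^ i * 3) = ψ (2 ^ j * 3) := by
  have h1 : ∀ m, 0 < m → ψ m ∈ Finset.Icc (-3 : ℤ) 3 := fun m hm =>
    Finset.mem_Icc.2 (abs_le.1 (h m hm))
  let f : ℕ → Finset.Icc (-3 : ℤ) 3 × Finset.Icc (-3 : ℤ) 3 × Finset.Icc (-3 : ℤ) 3 := fun i =>
    (⟨ψ (2 ^ i), h1 _ (by positivity)⟩,
    ⟨ψ (2 ^ i * 2), h1 _ (by positivity)⟩, ⟨ψ (2 ^ i * 3), h1 _ (by positivity)⟩)
  obtain ⟨i, j, hij, he⟩ := Finite.exists_ne_map_eq_of_infinite f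
  have key : ∀ i j, f i = f j → ψ (2 ^ i) = ψ (2 ^ j) ∧ ψ (2 ^ i * 2) = ψ (2 ^ j * 2) ∧
      ψ (2 ^ i * 3) = ψ (2 ^ j * 3) := by
    intro i j he
    simp only [f, Prod.mk.injEq, Subtype.mk.injEq] at he
    exact he
  rcases lt_or_gt_of_ne hij with h2 | h2
  · exact ⟨i, j, h2, key i j he⟩
  · exact ⟨j, i, h2, key j i he.symm⟩

/-- A finite set of nonzero numbers stable under a power map consists of roots of unity. -/
theorem roots_of_unity (R : Set ℂ) (hR : R.Finite) (h0 : (0 : ℂ) ∉ R) (q : ℕ) (hq : 2 ≤ q)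
    (hqR : ∀ μ ∈ R, μ ^ q ∈ R) : ∃ N : ℕ, 0 < N ∧ ∀ μ ∈ R, μ ^ N = 1 := by
  classical
  have h1 : ∀ μ ∈ R, ∃ e : ℕ, 0 < e ∧ μ ^ e = 1 := by
    intro μ hμ
    have h2 : ∀ r : ℕ, μ ^ q ^ r ∈ R := by
      intro r
      induction r with
      | zero => simpa using hμ
      | succ r ih =>
        rw [pow_succ, pow_mul]
        exact hqR _ ih
    have := hR.to_subtype
    obtain ⟨i, j, hij, he⟩ := Finite.exists_ne_map_eq_of_infinite
      (fun r : ℕ => (⟨μ ^ q ^ r, h2 r⟩ : R))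
    simp only [Subtype.mk.injEq] at he
    have hμ0 : μ ≠ 0 := fun h => h0 (h ▸ hμ)
    have key : ∀ i j : ℕ, i < j → μ ^ q ^ i = μ ^ q ^ j → ∃ e : ℕ, 0 < e ∧ μ ^ e = 1 := by
      intro i j hij he
      have hlt : q ^ i < q ^ j := Nat.pow_lt_pow_right (by omega) hij
      refine ⟨q ^ j - q ^ i, by omega, ?_⟩
      have h3 : μ ^ q ^ j = μ ^ (q ^ j - q ^ i) * μ ^ q ^ i := by
        rw [← pow_add]
        congr 1
        omega
      rw [h3] at he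
      exact (mul_eq_right₀ (pow_ne_zero _ hμ0)).1 he.symm
    rcases lt_or_gt_of_ne hij with h3 | h3
    · exact key i j h3 he
    · exact key j i h3 he.symm
  choose! e he1 he2 using h1
  refine ⟨∏ μ ∈ hR.toFinset, e μ, Finset.prod_pos fun μ hμ => he1 μ (hR.mem_toFinset.1 hμ), ?_⟩
  intro μ hμ
  obtain ⟨c, hc⟩ := Finset.dvd_prod_of_mem e (hR.mem_toFinset.2 hμ)
  rw [hc, pow_mul, he2 μ hμ, one_pow]

theorem spec_finite (A : Matrix (Fin 3) (Fin 3) ℂ) : (spectrum ℂ A).Finite := by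
  refine Set.Finite.subset (A.charpoly.roots.toFinset.finite_toSet) fun μ hμ => ?_
  rw [Matrix.mem_spectrum_iff_isRoot_charpoly] at hμ
  rw [Finset.mem_coe, Multiset.mem_toFinset, Polynomial.mem_roots']
  exact ⟨A.charpoly_monic.ne_zero, hμ⟩

/-- A distorted element acts quasi-unipotently. -/
theorem dst : S_DST := by
  intro G _ ρ ψ hψ x hx
  have hpow : ∀ m : ℕ, (ρ (x ^ m)).val = (ρ x).val ^ m := by
    intro m
    rw [map_pow, Units.val_pow_eq_pow_val]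
  have hspec : ∀ m : ℕ, 0 < m → ∀ μ ∈ spectrum ℂ ((ρ x).val ^ m), ‖μ‖ ≤ 1 := by
    intro m hm μ hμ
    rw [spectrum.map_pow_of_pos _ hm] at hμ
    obtain ⟨ν, hν, rfl⟩ := hμ
    simp only [norm_pow]
    exact pow_le_one₀ (norm_nonneg _) (eig_le ρ x hx ν hν)
  have htr : ∀ m : ℕ, ((ρ x).val ^ m).trace = (ψ (x ^ m) : ℂ) := by
    intro m
    rw [← hpow, hψ]
  have hb : ∀ m : ℕ, 0 < m → |ψ (x ^ m)| ≤ 3 := by
    intro m hm
    have h1 := trace_le (hspec m hm)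
    rw [htr, Complex.norm_intCast] at h1
    exact_mod_cast h1
  obtain ⟨i, j, hij, h1, h2, h3⟩ := pigeon (fun m => ψ (x ^ m)) hb
  obtain ⟨B, hB⟩ : ∃ B, B = (ρ x).val ^ 2 ^ i := ⟨_, rfl⟩
  have hBj : B ^ 2 ^ (j - i) = (ρ x).val ^ 2 ^ j := by
    rw [hB, ← pow_mul, ← pow_add]
    congr 2
    omega
  have hsp : spectrum ℂ B = spectrum ℂ (B ^ 2 ^ (j - i)) := by
    rw [hBj, hB]
    refine spec_eq ?_ ?_ ?_
    · rw [htr, htr, h1]
    · rw [← pow_mul, ← pow_mul, htr, htr, h2]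
    · rw [← pow_mul, ← pow_mul, htr, htr, h3]
  have hu : ∀ m : ℕ, (0 : ℂ) ∉ spectrum ℂ ((ρ x).val ^ m) := by
    intro m
    rw [← hpow]
    exact spectrum.zero_notMem ℂ (ρ (x ^ m)).isUnit
  have hq : 2 ≤ 2 ^ (j - i) := by
    calc 2 = 2 ^ 1 := by norm_num
      _ ≤ 2 ^ (j - i) := Nat.pow_le_pow_right (by norm_num) (by omega)
  obtain ⟨N, hN, hN1⟩ := roots_of_unity (spectrum ℂ B) (spec_finite B) (by rw [hB]; exact hu _)
    (2 ^ (j - i)) hq (by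
      intro μ hμ
      rw [hsp]
      exact spectrum.pow_mem_pow B _ hμ)
  have hone : ∀ μ ∈ spectrum ℂ (ρ (x ^ (2 ^ i * N))).val, μ = 1 := by
    intro μ hμ
    rw [hpow, pow_mul, ← hB, spectrum.map_pow_of_pos _ hN] at hμ
    obtain ⟨ν, hν, rfl⟩ := hμ
    exact hN1 ν hν
  refine ⟨2 ^ i * N, by positivity, ?_, ?_⟩
  · have h4 := trace_three hone
    rw [hψ] at h4
    exact_mod_cast h4
  · have h4 : ∀ μ ∈ spectrum ℂ (ρ (x ^ (2 ^ i * N))⁻¹).val, μ = 1 := by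
      intro μ hμ
      rw [map_inv, ← spectrum.map_inv, Set.mem_inv] at hμ
      have h5 := hone _ hμ
      rwa [inv_eq_one] at h5
    have h6 := trace_three h4
    rw [hψ] at h6
    exact_mod_cast h6

end Pool.Agent.H250.GI
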